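import Mathlib
import Pool.Agent.H592.TD.Defs

/-!
# TR project (helper592), `MP_33509c_nt`: `∑_{n ≤ X} d(n) d(n+1) d(n+2)` is at least `25/27 - o(1)` of the conjectured
main term `(11/8) ∏_p (1 - 1/p)² (1 + 2/p) X log³ X`

Definitions (`In`, `rho`, `cc` are in `Pool.Agent.H592.TD.Defs`).
-/

set_option autoImplicit false

open Finset Filter Topology

namespace Pool.Agent.H592.TR

open Pool.Agent.H592.TD (In rho cc Good)

/-- the constant of the conjecture -/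
noncomputable def CC : ℝ := 11 / 8 * ∏' p : Nat.Primes, ((1 - 1 / (p : ℝ)) ^ 2 * (1 + 2 / (p : ℝ)))

/-- the proportion of the pairs `(b, c)` of residues modulo `m n` with `m ∣ b c + u` and `n ∣ b c + v` -/
noncomputable def RR (u v : ℤ) (m n : ℕ) : ℝ :=
  (((range (m * n) ×ˢ range (m * n)).filter
    (fun p : ℕ × ℕ => (m : ℤ) ∣ (p.1 : ℤ) * p.2 + u ∧ (n : ℤ) ∣ (p.1 : ℤ) * p.2 + v)).card : ℝ) / ((m : ℝ) * n) ^ 2

/-- the three pairs of differences of shifts which occur: `b c = N + t`, and the other shifts are `t + u`, `t + v` -/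
def Adm (u v : ℤ) : Prop := (u = 1 ∧ v = 2) ∨ (u = -1 ∧ v = 1) ∨ (u = -2 ∧ v = -1)

/-- `lcm (m, n) = M₀ q` with `M₀ ≤ Z` and `q` squarefree, odd and coprime to `M₀` -/
def Good2 (Z m n : ℕ) : Prop :=
  ∃ M₀ q : ℕ, Nat.lcm m n = M₀ * q ∧ 1 ≤ M₀ ∧ M₀ ≤ Z ∧ Squarefree q ∧ Nat.Coprime q M₀ ∧ Odd q

/-- the number of the divisors of `n` in `(X^α, X^β]` -/
noncomputable def dv (X α β : ℝ) (n : ℕ) : ℕ := ((In X α β).filter (fun m => m ∣ n)).card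

/-- the number of the `(N, m₀, m₁, m₂)` with `X/(2 log X) < N ≤ X`, `X^(α i) < m_i ≤ X^(β i)` and `m_i ∣ N + i` -/
noncomputable def C3 (X : ℝ) (α β : Fin 3 → ℝ) : ℕ :=
  ∑ N ∈ Ioc ⌊X / (2 * Real.log X)⌋₊ ⌊X⌋₊,
    dv X (α 0) (β 0) N * dv X (α 1) (β 1) (N + 1) * dv X (α 2) (β 2) (N + 2)

/-- the open cube `(0, 1/2)³` -/
def Cube : Set (Fin 3 → ℝ) := {z | ∀ i, 0 < z i ∧ z i < 1 / 2}

/-- the part of the cube with `z i + z j < 2/3` -/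
def Reg (i j : Fin 3) : Set (Fin 3 → ℝ) := {z | z ∈ Cube ∧ z i + z j < 2 / 3}

/-- the closed cell with lower corner `z / n` and side `1 / n` -/
def cell (n : ℕ) (z : Fin 3 → ℕ) : Set (Fin 3 → ℝ) :=
  {t | ∀ i, (z i : ℝ) / n ≤ t i ∧ t i ≤ ((z i : ℝ) + 1) / n}

/-- Euler's factor at an odd modulus: the sum of `φ(m)/m²` over the odd multiples `m` of `d` with
`2^i m ∈ (X^α, X^β]` -/
noncomputable def VV (X α β : ℝ) (d i : ℕ) : ℝ :=
  ∑ m ∈ (Icc 1 ⌊X ^ β⌋₊).filter (fun m => 2 ^ i * m ∈ In X α β ∧ Odd m ∧ d ∣ m), (Nat.totient m : ℝ) / (m : ℝ) ^ 2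

/-- `κ_d = (4/π²) ∏_{p ∣ d} 1/(p+1)` -/
noncomputable def kap (d : ℕ) : ℝ := 4 / Real.pi ^ 2 * ∏ p ∈ d.primeFactors, 1 / ((p : ℝ) + 1)

end Pool.Agent.H592.TR
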