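import Mathlib
import Pool.Agent.H592.TR.Defs

/-!
# TR project (helper592): the statements with paper proofs
-/

set_option autoImplicit false

open Finset Filter Topology

namespace Pool.Agent.H592.TR

open Pool.Agent.H592.TD (In rho cc Good)

/-- **TR1 (one modulus, uniformly in the residue class).** Proof: this is `Pool.Agent.H592.TD.S7` with `a = 1`, proved from
`Pool.Agent.H592.TD.S1` in `Pool/Agent/H738/TD/S7.lean` (`S1` itself is `Pool.Agent.H350.TD.s1`, file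
`Pool/Agent/H350/TD/S1.lean`). Two changes: (1) `X₀` does not depend on `s` (in the proof it does not);
(2) the condition `X^β₂ ≤ M` is dropped and `X^β₂ / √M` is added to the error: in the proof the box error
`(b_{k+1} - b_k)/√q ≤ X^β₂/√q ≤ √Z X^β₂/√M`. -/
def T1 : Prop := ∀ (β₁ β₂ : ℝ), 0 < β₁ → β₁ < β₂ → β₂ < 1 → ∀ (Z : ℕ) (η ε : ℝ), 0 < η → 0 < ε → ε < 1 - β₂ →
  ∃ X₀ : ℝ, ∀ X : ℝ, X₀ ≤ X → ∀ (s : ℤ) (M : ℕ), s ≠ 0 → Good s Z M → (M : ℝ) ≤ X →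
    (1 - η) * ((β₂ - β₁) * Real.log X) * X * rho s 1 M -
        X ^ ε * (Real.sqrt M + X ^ β₂ / Real.sqrt M + X ^ (1 - β₁) / (M : ℝ)) ≤
      ∑ b ∈ In X β₁ β₂, (cc s X M 1 b : ℝ)

/-- **TR2 (Chinese remainder theorem).** Proof. The pairs `(b, c)` modulo `m n`, `m = 2^i m'`, `n = 2^j n'`: the condition
splits into one modulo `2^(i+j)` and one modulo `m' n'` (it depends only on `b, c` modulo `lcm`). If a prime divides
`m'` and `n'` it divides `u - v`, which is `±1` or `±2`: impossible for an odd prime, so the number is `0`. If `m', n'` are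
coprime it splits again; `u` is a unit modulo `m'` (odd, `u ∈ {±1, ±2}`), so `b c ≡ -u mod m'` has `φ(m')` solutions. -/
def T2 : Prop := ∀ u v : ℤ, Adm u v → ∀ i j m n : ℕ, Odd m → Odd n →
  RR u v (2 ^ i * m) (2 ^ j * n) = RR u v (2 ^ i) (2 ^ j) *
    (if Nat.Coprime m n then (Nat.totient m : ℝ) / (m : ℝ) ^ 2 * ((Nat.totient n : ℝ) / (n : ℝ) ^ 2) else 0)

/-- **TR3 (the prime 2).** Proof. `b c ≡ t mod 2^k` with `t` odd has `2^(k-1)` solutions modulo `2^k` (`k ≥ 1`), with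
`t ≡ 2 mod 4`, `k ≥ 2` it has `2^k`, and `b c ≡ 0 mod 2` has `3`. Table of `2^(i+j) RR u v (2^i) (2^j)`:
`(1,2)`: `1` at `(0,0)`, `1/2` at `(i ≥ 1, 0)`, `3/2` at `(0,1)`, `1` at `(0, j ≥ 2)`, `0` otherwise;
`(-2,-1)`: the same with `i`, `j` exchanged;
`(-1,1)`: `1` at `(0,0)`, `1/2` at `(i ≥ 1, 0)` and `(0, j ≥ 1)`, `1` if `i, j ≥ 1` and `min = 1`, `0` if `min ≥ 2`.
(checked numerically). The sum is `11/4` in each case. -/
def T3 : Prop := ∀ u v : ℤ, Adm u v →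
  (∀ i j : ℕ, 0 ≤ RR u v (2 ^ i) (2 ^ j) ∧ RR u v (2 ^ i) (2 ^ j) ≤ 3 / 2 / 2 ^ (i + j)) ∧
  HasSum (fun p : ℕ × ℕ => RR u v (2 ^ p.1) (2 ^ p.2)) (11 / 4)

/-- **TR4 (one variable).** Proof. Bound: `φ(m)/m² ≤ 1/m`, and the sum of `1/m` over the multiples `m ≤ X^β` of `d` is at most
`(1 + β log X)/d`. Limit: `φ(m)/m = ∑_{e ∣ m} μ(e)/e`, so `VV = ∑_{e odd} (μ(e)/e) ∑ 1/m`, the inner sum over the odd
multiples of `lcm (d, e)` with `X^α/2^i < m ≤ X^β/2^i`, which is `(1/(2 lcm (d,e))) (β - α) log X + O(1/lcm)`; the terms are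
dominated by `(C log X) (d,e)/(e² d)`. Hence (Tannery) the limit is `(β - α) (1/2) ∑_{e odd} μ(e)/(e lcm(d,e))
= (β - α) (1/2) (1/d) ∏_{p ∣ d} (1 - 1/p) ∏_{p ∤ 2d} (1 - 1/p²) = (β - α) kap d`, as `∏_p (1 - 1/p²) = 6/π²`. -/
def T4 : Prop := ∀ (α β : ℝ), 0 < α → α < β →
  (∀ d i : ℕ, Odd d → Squarefree d →
    Tendsto (fun X : ℝ => VV X α β d i / Real.log X) atTop (𝓝 ((β - α) * kap d))) ∧
  ∃ C : ℝ, 0 ≤ C ∧ ∀ X : ℝ, 2 ≤ X → ∀ d i : ℕ, 1 ≤ d → VV X α β d i ≤ C / d * Real.log X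

/-- **TR5 (Euler product).** Proof. For an odd prime `1 - 1/(p+1)² = p (p+2)/(p+1)²` and
`(1 - 1/p²)² (1 - 1/(p+1)²) = (1 - 1/p)² (1 + 2/p)`. The series is the Euler product
`(4/π²)² ∏_{p odd} (1 - 1/(p+1)²)` (`EulerProduct` in Mathlib for the multiplicative function
`μ(d) (kap d / kap 1)²`), `∏_p (1 - 1/p²) = 6/π²`, `∏_{p odd} (1 - 1/p²) = 8/π²`, so it is
`(1/4) ∏_{p odd} (1 - 1/p)² (1 + 2/p) = (1/4) · 2 ∏_p (...) = (4/11) CC` (the factor at `2` is `1/2`). Positivity: all factors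
are positive and the product converges (`∑ log` of the factors converges absolutely). -/
def T5 : Prop := 0 < CC ∧
  HasSum (fun d : ℕ => if Odd d then ((ArithmeticFunction.moebius d : ℤ) : ℝ) * kap d ^ 2 else 0) (4 / 11 * CC)

/-- **TR6 (main term).** Proof from `T2`, `T3`, `T4`, `T5`. Write `m = 2^i m'`, `n = 2^j n'` with `m'`, `n'` odd; by `T2` the
sum is `∑_{i,j} RR (2^i) (2^j) ∑_{m', n' odd, coprime} φ(m')/m'² φ(n')/n'²`, and the indicator of coprimality is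
`∑_{d ∣ m', d ∣ n'} μ(d)`: the sum is `∑_{i,j} RR (2^i) (2^j) ∑_{d odd} μ(d) VV X β₁ β₂ d i * VV X γ₁ γ₂ d j`. Divide by `log² X`
and use dominated convergence (`tendsto_tsum_of_dominated_convergence` over `ℕ × ℕ × ℕ`) with the dominating series
`(3/2) 2^(-i-j) C²/d²`. The limit is `(β₂-β₁)(γ₂-γ₁) (11/4) (4/11) CC`. -/
def T6 : Prop := ∀ u v : ℤ, Adm u v → ∀ (β₁ β₂ γ₁ γ₂ : ℝ), 0 < β₁ → β₁ < β₂ → 0 < γ₁ → γ₁ < γ₂ →
  Tendsto (fun X : ℝ => (∑ m ∈ In X β₁ β₂, ∑ n ∈ In X γ₁ γ₂, RR u v m n) / Real.log X ^ 2) atTop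
    (𝓝 ((β₂ - β₁) * (γ₂ - γ₁) * CC))

/-- **TR7 (bad moduli).** Proof from `T2`, `T3`. Let `RR u v m n ≠ 0`, `m = 2^i m'`, `n = 2^j n'`; then `m'`, `n'` are coprime.
Let `f(k)` be the product of the `p^a ∥ k` with `a ≥ 2`. Then `lcm (m, n) = M₀ q` with `M₀ = 2^max(i,j) f(m') f(n')` and `q`
squarefree, odd, coprime to `M₀`. So if `(m, n)` is not good, then `2^i > Z^(1/4)` or `2^j > Z^(1/4)` or `f(m') > Z^(1/4)` or
`f(n') > Z^(1/4)`. By `T2`, `T3` `RR ≤ (3/2)/(m n)`, and the sums of `1/m` over `m ≤ X^β₂` with `2^i ∣ m`, or with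
`f ∣ m` for a powerful `f > Z^(1/4)`, are at most `(1 + β₂ log X)` times `2^(-i)`, or the tail of the convergent series
`∑ 1/f` over powerful numbers. -/
def T7 : Prop := ∀ u v : ℤ, Adm u v → ∀ (β₁ β₂ γ₁ γ₂ : ℝ), 0 < β₁ → β₁ < β₂ → 0 < γ₁ → γ₁ < γ₂ →
  ∀ η : ℝ, 0 < η → ∃ Z : ℕ, ∀ X : ℝ, 2 ≤ X →
    ∑ m ∈ In X β₁ β₂, ∑ n ∈ In X γ₁ γ₂, (open Classical in if Good2 Z m n then 0 else RR u v m n) ≤
      η * Real.log X ^ 2

/-- **TR8 (box).** Proof from `T1`, `T6`, `T7`. Let `t` be the third index, `q < r` the two indices with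
`β q + β r < 2/3`, `u = q - t`, `v = r - t` (so `Adm u v`). Fix `m ∈ In X (α q) (β q)`, `n ∈ In X (α r) (β r)` with
`Good2 Z m n` and `RR u v m n ≠ 0`; then `gcd (m, n) ∣ q - r` and there is `1 ≤ n₀ ≤ L = lcm (m, n)` with `m ∣ n₀ + q`,
`n ∣ n₀ + r`. Put `s = -(n₀ + t)`. `L ∣ b c + s` if and only if for `N = b c - t`: `m ∣ N + q` and `n ∣ N + r`; so
`rho s 1 L = RR u v m n` (both are proportions of pairs of residues modulo a common multiple of the period), and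
`Good s Z L`: an odd prime divisor of `L` divides `m` or `n`, and `s ≡ u mod m`, `s ≡ v mod n`, `u, v ∈ {±1, ±2}`.
Every pair `(b, c)` counted in `cc s X L 1 b`, `b ∈ In X (α t) (β t)`, gives `N = b c - t` with `X/(2 log X) < N ≤ X` (large
`X`), `b ∣ N + t`, `m ∣ N + q`, `n ∣ N + r`; different `(b, c, m, n)` give different `(N, b, m, n)`. So `C3` is at least the
sum over the good `(m, n)` of the lower bound in `T1`. Main term:
`(1-η)(β t - α t) X log X (∑ RR - ∑_{not good} RR)`, use `T6` and `T7`. Errors: `mn/2 ≤ L ≤ mn` (if `RR ≠ 0`), and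
`∑_{m,n} (√(mn) + 2 X^(β t)/√(mn) + 2 X^(1 - α t)/(mn)) ≤ X^(1-2ε)` for small `ε`, as `β q + β r < 2/3` and `β t ≤ 1/2`. -/
def T8 : Prop := ∀ α β : Fin 3 → ℝ, (∀ i, 0 < α i ∧ α i < β i ∧ β i ≤ 1 / 2) →
  (∃ i j : Fin 3, i ≠ j ∧ β i + β j < 2 / 3) → ∀ v : ℝ, v < (∏ i, (β i - α i)) * CC →
    ∀ᶠ X : ℝ in atTop, v * (X * Real.log X ^ 3) ≤ (C3 X α β : ℝ)

/-- **TR9 (cells).** The same as `Pool.Agent.H592.TD.S9` (proved in `Pool/Agent/H120/TD/S9.lean`), in dimension three and for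
three open sets. -/
def T9 : Prop := ∀ (A B C : Set (Fin 3 → ℝ)), IsOpen A → IsOpen B → IsOpen C → Bornology.IsBounded A →
  Bornology.IsBounded B → Bornology.IsBounded C → (∀ t ∈ A ∪ B ∪ C, ∀ i, 0 < t i) →
  ∀ v : ℝ, v < (MeasureTheory.volume (A ∪ B ∪ C)).toReal →
  ∃ (n : ℕ) (K : Finset (Fin 3 → ℕ)), 1 ≤ n ∧ (∀ z ∈ K, cell n z ⊆ A ∨ cell n z ⊆ B ∨ cell n z ⊆ C) ∧
    v < (K.card : ℝ) / (n : ℝ) ^ 3

/-- **TR10 (volume).** The complement in the cube: all `z i + z j ≥ 2/3`. With `w i = 1/2 - z i ≥ 0` it is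
`w i + w j ≤ 1/3` for all `i < j`: the cube `[0, 1/6]³` (volume `1/216`) and three parts `w i = 1/6 + t`, the others at most
`1/6 - t`, of volume `∫_0^(1/6) (1/6 - t)² dt = 1/648` each. So the volume of the union is
`1/8 - 1/216 - 3/648 = 25/216` (only `≥` is needed). -/
def T10 : Prop := (25 / 216 : ℝ) ≤ (MeasureTheory.volume (Reg 0 1 ∪ Reg 0 2 ∪ Reg 1 2)).toReal

/-- **TR11 (assembly).** Proof from `T5` (`CC > 0`), `T8`, `T9`, `T10`. For `c < 25/27` choose by `T9` a finite set `K` of cells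
`z` inside one of the three regions with `c CC < 8 (K.card / n³) CC`; if `cell n z ⊆ Reg i j` the corners satisfy the
hypotheses of `T8` with `α i = z i / n`, `β i = (z i + 1)/n` (`z i ≥ 1`, `β i < 1/2`, `β i + β j < 2/3`). For large `X`,
`N > X/(2 log X)` and `m ≤ X^(β i)` with `β i < 1/2` imply `m² < N`, and the cells are disjoint in the exponents, so
`∑_{z ∈ K} C3 ≤ ∑_N ∏_i #{m : m ∣ N + i, m² < N + i} ≤ (1/8) ∑_N d(N) d(N+1) d(N+2)` (`m ↦ (N+i)/m`). -/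
def T11 : Prop := ∀ c : ℝ, c < 25 / 27 → ∀ᶠ X : ℕ in atTop, c * (CC * (X * Real.log X ^ 3)) ≤
  ∑ N ∈ Icc 1 X, (N.divisors.card : ℝ) * (N + 1).divisors.card * (N + 2).divisors.card

end Pool.Agent.H592.TR
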