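import Pool.Agent.H767.TR.T1
import Pool.Agent.H703.TR.T2
import Pool.Agent.H921.TR.T3
import Pool.Agent.H387.TR.T4
import Pool.Agent.H947.TR.T5
import Pool.Agent.H200.TR.T6
import Pool.Agent.H397.TR.T7
import Pool.Agent.H592.TR.T8
import Pool.Agent.H603.TR.T9
import Pool.Agent.H299.TR.T10
import Pool.Agent.H400.TR.T11

/-!
# TR project: assembly
-/

set_option autoImplicit false

namespace Pool.Agent.H592.TR

theorem t11_main : T11 := by
  have h1 : T1 := Pool.Agent.H767.TR.t1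
  have h2 : T2 := Pool.Agent.H703.TR.T2.t2
  have h3 : T3 := Pool.Agent.H921.TR.t3
  have h4 : T4 := Pool.Agent.H387.TR.t4
  have h5 : T5 := Pool.Agent.H947.TR.t5
  have h6 : T6 := Pool.Agent.H592.TR.t6 h2 h3 h4 h5
  have h7 : T7 := Pool.Agent.H592.TR.t7 h2 h3
  have h8 : T8 := Pool.Agent.H592.TR.t8 h1 h5 h6 h7
  exact Pool.Agent.H592.TR.t11 h5 h8 Pool.Agent.H603.TR.t9 Pool.Agent.H299.TR.t10

end Pool.Agent.H592.TR
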